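import Pool.Agent.W645.FB.All

/-!
# The rules `x ^ n → x ^ (n + m)`: languages that are not regular, for all `(n, m) ≠ (1, 1)`

`Step n m v v'` says that `v = p ++ x ^ n ++ q` and `v' = p ++ x ^ (n + m) ++ q` for some words
`p`, `x`, `q` (`pw x k` is the word `x` repeated `k` times), and `Lang n m w` is the set of all
words that are reached from `w` by finitely many such steps.

1. For all `n, m ≥ 1` with `(n, m) ≠ (1, 1)` and any two letters `a ≠ b` there is a word `w` in
   these letters such that the language `L(w)` is not regular.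
2. Hence, for these `(n, m)`, all languages `L(w)` over an alphabet are regular exactly when the
   alphabet has at most one letter.
3. For `n = 1` and `m ≥ 2` the language `L(w)` is regular exactly when all letters of `w` are
   equal.
4. For `n = 2` and every two letters `a ≠ b` there is a word `f` in these letters such that for
   every `m ≥ 1` and every word `w` with factor `f` the language `L(w)` is not regular.
-/

set_option autoImplicit false

universe u

namespace Pool.Agent.Results.MP_fb4a47_lc.AllExponents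

open Pool.Agent.H344R3.FB Pool.Agent.W937.FB Pool.Agent.W645.FB

/-- the injective map that sends `false` to `a` and `true` to `b` -/
theorem inj {α : Type u} {a b : α} (hab : a ≠ b) :
    Function.Injective (fun x : Bool => if x then b else a) := by
  intro x y hxy
  cases x <;> cases y
  · rfl
  · exact absurd hxy hab
  · exact absurd hxy.symm hab
  · rfl

theorem mem_map {α : Type u} {a b : α} (l : List Bool) :
    ∀ c ∈ l.map (fun x : Bool => if x then b else a), c = a ∨ c = b := by
  intro c hc
  obtain ⟨x, -, rfl⟩ := List.mem_map.1 hc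
  cases x
  · left; rfl
  · right; rfl

theorem two {α : Type u} (a b : α) (hab : a ≠ b) :
    ∃ f : List α, f.length = 5370 ∧ (∀ c ∈ f, c = a ∨ c = b) ∧
      ∀ m : ℕ, 1 ≤ m → ∀ u v : List α, ¬ (Lang 2 m (u ++ f ++ v)).IsRegular := by
  refine ⟨(pre V2 5370).map fun x => if x then b else a, by rw [List.length_map, pre_length],
    ?_, ?_⟩
  · intro c hc
    exact mem_map _ c hc
  · intro m hm u v
    refine two_not_regular_ctx _ ?_ m hm u v
    exact inj hab

theorem exists_word (n m : ℕ) (hn : 1 ≤ n) (hm : 1 ≤ m) (hne : (n, m) ≠ (1, 1)) (α : Type u)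
    (a b : α) (hab : a ≠ b) :
    ∃ w : List α, (∀ c ∈ w, c = a ∨ c = b) ∧ ¬ (Lang n m w).IsRegular := by
  rcases Nat.lt_or_ge n 3 with h3 | h3
  · rcases Nat.lt_or_ge n 2 with h1 | h1
    · obtain rfl : n = 1 := by omega
      have hm2 : 2 ≤ m := by
        rcases Nat.lt_or_ge m 2 with h2 | h2
        · obtain rfl : m = 1 := by omega
          exact absurd rfl hne
        · exact h2
      refine ⟨[a, b], by simp, fun h => hab ((one_iff hm2 [a, b]).1 h a (by simp) b (by simp))⟩
    · obtain rfl : n = 2 := by omega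
      obtain ⟨f, -, h1, h2⟩ := two a b hab
      exact ⟨f, h1, by simpa using h2 m hm [] []⟩
  · exact ⟨_, mem_map _, three_not_regular (inj hab) h3 hm⟩

theorem result :
    (∀ n m : ℕ, 1 ≤ n → 1 ≤ m → (n, m) ≠ (1, 1) → ∀ (α : Type u) (a b : α), a ≠ b →
      ∃ w : List α, (∀ c ∈ w, c = a ∨ c = b) ∧ ¬ (Lang n m w).IsRegular) ∧
    (∀ n m : ℕ, 1 ≤ n → 1 ≤ m → (n, m) ≠ (1, 1) → ∀ α : Type u,
      (∀ w : List α, (Lang n m w).IsRegular) ↔ Subsingleton α) ∧
    (∀ m : ℕ, 2 ≤ m → ∀ (α : Type u) (w : List α),
      (Lang 1 m w).IsRegular ↔ ∀ a ∈ w, ∀ b ∈ w, a = b) ∧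
    (∀ (α : Type u) (a b : α), a ≠ b →
      ∃ f : List α, f.length = 5370 ∧ (∀ c ∈ f, c = a ∨ c = b) ∧
        ∀ m : ℕ, 1 ≤ m → ∀ u v : List α, ¬ (Lang 2 m (u ++ f ++ v)).IsRegular) := by
  refine ⟨exists_word, ?_, fun m hm α w => one_iff hm w, fun α a b hab => two a b hab⟩
  intro n m hn hm hne α
  constructor
  · intro h
    refine ⟨fun a b => ?_⟩
    by_contra hab
    obtain ⟨w, -, hw⟩ := exists_word n m hn hm hne α a b hab
    exact hw (h w)
  · intro hs w
    exact const_regular hn hm fun a _ b _ => Subsingleton.elim a b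

end Pool.Agent.Results.MP_fb4a47_lc.AllExponents
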